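import Pool.Agent.TBP.StmtsC
import Pool.Agent.Helper94_TBP.MOM

set_option autoImplicit false

/-!
# Row MO2 of squad TBP: the moment bound for the exponents `r ≤ rho`

Copy of `Helper94_TBP/MOM.lean` with `r` for `rho`.
-/

namespace Pool.Agent.TBP.H92

open Finset
open Pool.Agent.TBP Pool.Agent.Common_Sieve Pool.Agent.Helper46_MNO Pool.Agent.TBP.H94

/-- DIV summed over `S`, the sums exchanged -/
lemma swap2 (r : ℝ) (hr0 : 0 < r) (hDIV : ∀ m : ℕ, 1 ≤ m →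
    tk r m ≤ 7 * ∑ d ∈ m.divisors.filter (fun d => d ^ 4 ≤ m ^ 3), GR r d)
    (hGG : ∀ m : ℕ, 0 ≤ GR r m) (S P : Finset ℕ) (m : ℕ → ℕ) (N : ℕ)
    (hN : ∀ t ∈ S, ∀ d, d ^ 4 ≤ (m t) ^ 3 → d ≤ N)
    (hP : ∀ t ∈ S, ∀ d, m t ≠ 0 → d ∣ m t → d ≤ N → d.primeFactors ⊆ P) :
    ∑ t ∈ S, tk r (m t) ≤ 7 * ∑ d ∈ (Icc 1 N).filter (fun d => d.primeFactors ⊆ P),
      GR r d * ((S.filter (fun t => d ∣ m t)).card : ℝ) := by
  have key : ∀ t ∈ S, tk r (m t) ≤ 7 * ∑ d ∈ (Icc 1 N).filter (fun d => d.primeFactors ⊆ P),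
      if d ∣ m t then GR r d else 0 := by
    intro t ht
    by_cases h0 : m t = 0
    · rw [h0, tk_zero hr0]
      apply mul_nonneg (by norm_num)
      apply sum_nonneg
      intro d _
      split_ifs
      · exact hGG d
      · exact le_rfl
    · refine (hDIV (m t) (Nat.one_le_iff_ne_zero.2 h0)).trans ?_
      apply mul_le_mul_of_nonneg_left _ (by norm_num)
      rw [← sum_filter]
      apply sum_le_sum_of_subset_of_nonneg
      · intro d hd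
        rw [mem_filter, Nat.mem_divisors] at hd
        obtain ⟨⟨hd1, _⟩, hd2⟩ := hd
        rw [mem_filter, mem_filter, mem_Icc]
        have hdN := hN t ht d hd2
        exact ⟨⟨⟨Nat.pos_of_dvd_of_pos hd1 (Nat.pos_of_ne_zero h0), hdN⟩,
          hP t ht d h0 hd1 hdN⟩, hd1⟩
      · intro d _ _
        exact hGG d
  refine (sum_le_sum key).trans ?_
  rw [← mul_sum, sum_comm]
  apply mul_le_mul_of_nonneg_left _ (by norm_num)
  apply sum_le_sum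
  intro d _
  rw [← sum_filter, sum_const, nsmul_eq_mul, mul_comm]

theorem mo2 (hSVE : SveStmt) (hVDB : VdbStmt) (hSIZ : SizStmt) (hSTB : StbStmt) (hSTC : StcStmt)
    (hDI2 : Di2Stmt) (hEB2 : Eb2Stmt) (hGS2 : Gs2Stmt) : Mo2Stmt := by
  intro r θ hr0 hr1 hθ0 hθ1
  have hGG : ∀ m : ℕ, 0 ≤ GR r m := (hGS2 r hr0).1
  obtain ⟨K, hK⟩ := hSVE θ hθ0 hθ1
  obtain ⟨a, J0, ha, hS⟩ := hSIZ θ K hθ0 hθ1
  obtain ⟨C, hC1, hC⟩ := hEB2
  have ha' : (0 : ℝ) < a := by exact_mod_cast ha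
  refine ⟨a, J0, 35 * (C * (4 * (a : ℝ)) ^ ((2 : ℝ) ^ r - 1)), ha, by positivity, ?_⟩
  intro J hJ
  obtain ⟨σ, hσe⟩ : ∃ σ : ℤ, σ = -1 := ⟨_, rfl⟩
  have hσ : σ = 1 ∨ σ = -1 := Or.inr hσe
  rw [← hσe]
  obtain ⟨s1, s2, s3, s4, s5, s6, s7, s8⟩ := hS J hJ
  obtain ⟨v1, v2, v3, v4⟩ := hVDB θ J hθ0 hθ1
  obtain ⟨k1, k2⟩ := hK J (TT a J) σ hσ
  have hT0 : (0 : ℝ) < (TT a J : ℝ) := by exact_mod_cast s2
  have hTV : 0 < (TT a J : ℝ) * VV θ J := mul_pos hT0 v1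
  refine ⟨s1, s6, hTV, ?_, ?_⟩
  · refine le_trans ?_ k1
    linarith
  intro k j hk1 hkw hjJ hkj
  set g := Nat.gcd (WW J) k with hg
  have hgpos : 0 < g := Nat.gcd_pos_of_pos_right _ hk1
  set N : ℕ := 2 * (lw J 0) ^ (3 * a) with hN
  have hsw := swap2 r hr0 (fun m hm => hDI2 r m hr0 hr1 hm) hGG (SS θ J σ (TT a J)) (PP J j N k)
    (fun t => lf J σ k t / g) N (by
      intro t ht d hd
      have ht' : t ≤ TT a J := by
        unfold SS at ht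
        exact (mem_Icc.1 (mem_filter.1 ht).1).2
      have h1 : lf J σ k t ≤ 2 * (lw J 0) ^ (4 * a) := lf_le hσ ht' s6 hkw s4
      exact d_le hd ((Nat.div_le_self _ _).trans h1)) (by
      intro t ht d h0 hd hdN p hp
      have hpp := Nat.prime_of_mem_primeFactors hp
      have hpd := Nat.dvd_of_mem_primeFactors hp
      have hd0 : 0 < d := Nat.pos_of_dvd_of_pos hd (Nat.pos_of_ne_zero h0)
      unfold PP
      rw [mem_filter, mem_Icc]
      exact ⟨⟨hpp.one_lt.le, (Nat.le_of_dvd hd0 hpd).trans hdN⟩, hpp,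
        hSTC θ J (TT a J) j k t p σ hθ0 hσ s1 hjJ hk1 hkj ht hpp (hpd.trans hd)⟩)
  refine hsw.trans ?_
  have hcount : ∀ d ∈ (Icc 1 N).filter (fun d => d.primeFactors ⊆ PP J j N k),
      GR r d * (((SS θ J σ (TT a J)).filter (fun t => d ∣ lf J σ k t / g)).card : ℝ)
        ≤ 5 * ((TT a J : ℝ) * VV θ J) * (GR r d * (∏ p ∈ d.primeFactors, hh θ J p) / d) := by
    intro d hd
    rw [mem_filter, mem_Icc] at hd
    obtain ⟨⟨hd1, hdN⟩, _⟩ := hd
    obtain ⟨r0, hr0'⟩ := hSTB J k d σ hσ hk1 hd1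
    have c1 : (((SS θ J σ (TT a J)).filter (fun t => d ∣ lf J σ k t / g)).card : ℝ)
        ≤ (((SS θ J σ (TT a J)).filter (fun t : ℕ => (d : ℤ) ∣ (t : ℤ) - r0)).card : ℝ) := by
      exact_mod_cast card_le_card (fun t ht => by
        rw [mem_filter] at ht ⊢
        exact ⟨ht.1, hr0' t ht.2⟩)
    have c2 := k2 d r0 hd1
    have c3 := v4 d hd1
    have hd0 : (0 : ℝ) < d := by exact_mod_cast hd1
    have c4 : (((SS θ J σ (TT a J)).filter (fun t => d ∣ lf J σ k t / g)).card : ℝ)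
        ≤ 2 * ((TT a J : ℝ) / d + 1) * (VV θ J * ∏ p ∈ d.primeFactors, hh θ J p)
          + ((lw J 0 : ℕ) : ℝ) ^ K := by
      refine c1.trans (c2.trans ?_)
      have : 0 ≤ 2 * ((TT a J : ℝ) / d + 1) := by positivity
      have := mul_le_mul_of_nonneg_left c3 this
      linarith
    have c5 : (1 : ℝ) ≤ ∏ p ∈ d.primeFactors, hh θ J p := by
      have : ∏ _p ∈ d.primeFactors, (1 : ℝ) ≤ ∏ p ∈ d.primeFactors, hh θ J p :=
        prod_le_prod (fun _ _ => by norm_num) (fun p _ => v3 p)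
      simpa using this
    have c6 := count _ (TT a J : ℝ) (VV θ J) (∏ p ∈ d.primeFactors, hh θ J p) d
      (((lw J 0 : ℕ) : ℝ) ^ K) (2 * ((lw J 0 : ℕ) : ℝ) ^ (3 * a)) c4 hd0
      (by have : (d : ℝ) ≤ ((N : ℕ) : ℝ) := by exact_mod_cast hdN
          rw [hN] at this; push_cast at this; exact this)
      (by have : ((2 * (lw J 0) ^ (3 * a) : ℕ) : ℝ) ≤ (TT a J : ℝ) := by exact_mod_cast s3
          push_cast at this; exact this) v1 c5 s7
    calc GR r d * (((SS θ J σ (TT a J)).filter (fun t => d ∣ lf J σ k t / g)).card : ℝ)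
        ≤ GR r d * (5 * ((TT a J : ℝ) * VV θ J) * ((∏ p ∈ d.primeFactors, hh θ J p) / d)) :=
          mul_le_mul_of_nonneg_left c6 (hGG d)
      _ = _ := by ring
  have hN4 : N ≤ (lw J 0) ^ (4 * a) := s5
  have hE := hC r θ a J j N k hr0 hr1 hθ0 hθ1 ha s1 hjJ hN4 hk1
  have hpow : (4 * (a : ℝ) * 2 ^ j) ^ ((2 : ℝ) ^ r - 1)
      = (4 * (a : ℝ)) ^ ((2 : ℝ) ^ r - 1) * ((2 : ℝ) ^ j) ^ ((2 : ℝ) ^ r - 1) :=
    Real.mul_rpow (by positivity) (by positivity)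
  rw [hpow] at hE
  have h35 : (0 : ℝ) ≤ 35 * ((TT a J : ℝ) * VV θ J) := by positivity
  calc 7 * ∑ d ∈ (Icc 1 N).filter (fun d => d.primeFactors ⊆ PP J j N k),
        GR r d * (((SS θ J σ (TT a J)).filter (fun t => d ∣ lf J σ k t / g)).card : ℝ)
      ≤ 7 * ∑ d ∈ (Icc 1 N).filter (fun d => d.primeFactors ⊆ PP J j N k),
        5 * ((TT a J : ℝ) * VV θ J) * (GR r d * (∏ p ∈ d.primeFactors, hh θ J p) / d) :=
        mul_le_mul_of_nonneg_left (sum_le_sum hcount) (by norm_num)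
    _ = 35 * ((TT a J : ℝ) * VV θ J) *
        ∑ d ∈ (Icc 1 N).filter (fun d => d.primeFactors ⊆ PP J j N k),
          GR r d * (∏ p ∈ d.primeFactors, hh θ J p) / d := by
        rw [← mul_sum]; ring
    _ ≤ 35 * ((TT a J : ℝ) * VV θ J) * (C * ((4 * (a : ℝ)) ^ ((2 : ℝ) ^ r - 1)
        * ((2 : ℝ) ^ j) ^ ((2 : ℝ) ^ r - 1)) * (k.divisors.card : ℝ) ^ 4) :=
        mul_le_mul_of_nonneg_left hE h35
    _ = _ := by ring

end Pool.Agent.TBP.H92
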